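import Pool.Agent.helper46.T6L.SpecO

set_option autoImplicit false

namespace Pool.Agent.T6L

open Finset NumberField Pool.Agent.helper3.FT Pool.Agent.helper47.RA Pool.Agent.T5
open Pool.Agent.helper26.T5 (nn LEMB LPR LAW LP LPA HLN HPR HSQ HID HCL HGA)
open Pool.Agent.helper28.LT (rad)

/-- the local factor -/
noncomputable def OSR_g (p a : ℕ) : ℝ :=
  49 * ((4 * a + 1 : ℕ) : ℝ) * (((20 * a + 1 : ℕ) : ℝ)) ^ 2 / √((p : ℝ) ^ max 4 (a + 1))

theorem OSR_gw (f : ℕ) (hf : 1 ≤ f) : gw f = ∏ p ∈ f.primeFactors, OSR_g p (f.factorization p) := by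
  have hf0 : f ≠ 0 := by omega
  unfold gw OSR_g
  rw [Finset.prod_div_distrib, Finset.prod_mul_distrib, Finset.prod_mul_distrib, Finset.prod_const, Finset.prod_pow]
  have h4 : (f ^ 4).divisors.card = ∏ p ∈ f.primeFactors, (4 * f.factorization p + 1) := by
    rw [Nat.card_divisors (pow_ne_zero 4 hf0), Nat.primeFactors_pow _ (by norm_num)]
    refine Finset.prod_congr rfl fun p _ => ?_
    rw [Nat.factorization_pow]
    simp
  have h20 : (f ^ 20).divisors.card = ∏ p ∈ f.primeFactors, (20 * f.factorization p + 1) := by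
    rw [Nat.card_divisors (pow_ne_zero 20 hf0), Nat.primeFactors_pow _ (by norm_num)]
    refine Finset.prod_congr rfl fun p _ => ?_
    rw [Nat.factorization_pow]
    simp
  rw [h4, h20]
  have hW : √(WW f : ℝ) = ∏ p ∈ f.primeFactors, √((p : ℝ) ^ max 4 (f.factorization p + 1)) := by
    unfold WW
    rw [← Real.sqrt_prod]
    · push_cast
      rfl
    · intro p _
      positivity
  rw [hW]
  push_cast
  rfl

/-- the constants -/
noncomputable def OSR_k (a : ℕ) : ℝ := 49 * 9261 * √8 * (((a : ℝ)) ^ 3 * (1 / √2) ^ a + (a : ℝ) ^ 0 * (1 / √2) ^ a)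

theorem OSR_k_nonneg (a : ℕ) : 0 ≤ OSR_k a := by
  unfold OSR_k
  positivity

theorem OSR_sum : Summable OSR_k := by
  unfold OSR_k
  have hr : ‖(1 / √2 : ℝ)‖ < 1 := by
    rw [Real.norm_eq_abs, abs_of_nonneg (by positivity), div_lt_one (by positivity)]
    refine Real.lt_sqrt_of_sq_lt ?_
    norm_num
  exact ((summable_pow_mul_geometric_of_norm_lt_one 3 hr).add
    (summable_pow_mul_geometric_of_norm_lt_one 0 hr)).mul_left _

theorem OSR_poly (a : ℕ) : ((4 * a + 1 : ℕ) : ℝ) * (((20 * a + 1 : ℕ) : ℝ)) ^ 2 ≤ 9261 * ((a : ℝ) ^ 3 + (a : ℝ) ^ 0) := by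
  rcases Nat.eq_zero_or_pos a with rfl | ha
  · norm_num
  · have h1 : (1 : ℝ) ≤ a := by exact_mod_cast ha
    push_cast
    have h2 : (4 * (a : ℝ) + 1) ≤ 21 * a := by linarith
    have h3 : (20 * (a : ℝ) + 1) ^ 2 ≤ (21 * a) ^ 2 := by
      have : 20 * (a : ℝ) + 1 ≤ 21 * a := by linarith
      exact pow_le_pow_left₀ (by positivity) this 2
    calc (4 * (a : ℝ) + 1) * (20 * (a : ℝ) + 1) ^ 2 ≤ (21 * a) * (21 * a) ^ 2 :=
          mul_le_mul h2 h3 (by positivity) (by positivity)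
      _ = 9261 * (a : ℝ) ^ 3 := by ring
      _ ≤ 9261 * ((a : ℝ) ^ 3 + (a : ℝ) ^ 0) := by
          rw [pow_zero]
          linarith

theorem OSR_loc (p a : ℕ) (hp : 2 ≤ p) : OSR_g p a ≤ OSR_k a / (p : ℝ) ^ 2 := by
  have hp2 : (2 : ℝ) ≤ p := by exact_mod_cast hp
  have hp0 : (0 : ℝ) < p := by linarith
  have h1 : (p : ℝ) ^ 4 * ((2 : ℝ) ^ a / 8) ≤ (p : ℝ) ^ max 4 (a + 1) := by
    rcases le_or_gt a 3 with ha | ha
    · have h2 : max 4 (a + 1) = 4 := by omega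
      rw [h2]
      have h3 : (2 : ℝ) ^ a ≤ 2 ^ 3 := pow_le_pow_right₀ (by norm_num) ha
      have h4 : (2 : ℝ) ^ a / 8 ≤ 1 := by
        rw [div_le_one (by norm_num)]
        norm_num at h3
        exact h3
      have h5 : (0 : ℝ) < (p : ℝ) ^ 4 := by positivity
      nlinarith
    · have h2 : max 4 (a + 1) = 4 + (a - 3) := by omega
      rw [h2, pow_add]
      refine mul_le_mul_of_nonneg_left ?_ (by positivity)
      have h3 : (2 : ℝ) ^ a / 8 = 2 ^ (a - 3) := by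
        have h4 : a = (a - 3) + 3 := by omega
        rw [h4, pow_add, Nat.add_sub_cancel]
        norm_num
      rw [h3]
      exact pow_le_pow_left₀ (by norm_num) hp2 _
  have h2 : (p : ℝ) ^ 2 * ((√2) ^ a / √8) ≤ √((p : ℝ) ^ max 4 (a + 1)) := by
    refine Real.le_sqrt_of_sq_le ?_
    have h3 : ((p : ℝ) ^ 2 * ((√2) ^ a / √8)) ^ 2 = (p : ℝ) ^ 4 * ((2 : ℝ) ^ a / 8) := by
      rw [mul_pow, div_pow, ← pow_mul, ← pow_mul, mul_comm a 2, pow_mul (√2) 2 a, Real.sq_sqrt (by norm_num),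
        Real.sq_sqrt (by norm_num)]
    rw [h3]
    exact h1
  have h3 : (0 : ℝ) < (p : ℝ) ^ 2 * ((√2) ^ a / √8) := by positivity
  unfold OSR_g OSR_k
  have h4 := OSR_poly a
  have h5 : 49 * ((4 * a + 1 : ℕ) : ℝ) * (((20 * a + 1 : ℕ) : ℝ)) ^ 2 ≤ 49 * 9261 * ((a : ℝ) ^ 3 + (a : ℝ) ^ 0) := by
    rw [mul_assoc, mul_assoc]
    exact mul_le_mul_of_nonneg_left h4 (by norm_num)
  calc 49 * ((4 * a + 1 : ℕ) : ℝ) * (((20 * a + 1 : ℕ) : ℝ)) ^ 2 / √((p : ℝ) ^ max 4 (a + 1))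
      ≤ 49 * 9261 * ((a : ℝ) ^ 3 + (a : ℝ) ^ 0) / ((p : ℝ) ^ 2 * ((√2) ^ a / √8)) :=
        div_le_div₀ (by positivity) h5 h3 h2
    _ = 49 * 9261 * √8 * (((a : ℝ)) ^ 3 * (1 / √2) ^ a + (a : ℝ) ^ 0 * (1 / √2) ^ a) / (p : ℝ) ^ 2 := by
        rw [one_div, inv_pow]
        have h6 : (√2 : ℝ) ^ a ≠ 0 := by positivity
        have h7 : (√8 : ℝ) ≠ 0 := by positivity
        have h8 : (p : ℝ) ≠ 0 := hp0.ne'
        field_simp

theorem OSR_g_nonneg (p a : ℕ) : 0 ≤ OSR_g p a := by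
  unfold OSR_g
  positivity

theorem OSR : OSR_stmt := by
  refine ⟨1 + ∑' a, OSR_k a, ?_, ?_⟩
  · have : 0 ≤ ∑' a, OSR_k a := tsum_nonneg OSR_k_nonneg
    linarith
  intro s R hs
  classical
  have hK0 : 0 ≤ ∑' a, OSR_k a := tsum_nonneg OSR_k_nonneg
  rcases s.eq_empty_or_nonempty with rfl | ⟨f₀, hf₀⟩
  · simp only [Finset.sum_empty]
    positivity
  have hT : ∀ f ∈ s, f.primeFactors = R.primeFactors := by
    intro f hf
    rw [← (hs f hf).2]
    unfold rad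
    exact (Nat.primeFactors_prod_primeFactors f).symm
  have hR : ∏ p ∈ R.primeFactors, p = R := by
    rw [← hT f₀ hf₀]
    exact (hs f₀ hf₀).2
  set T := R.primeFactors with hTdef
  obtain ⟨B, hB⟩ : ∃ B : ℕ, ∀ f ∈ s, f ≤ B := ⟨s.sup id, fun f hf => Finset.le_sup (f := id) hf⟩
  have hfac : ∀ f ∈ s, ∀ p ∈ T, f.factorization p ∈ Finset.Icc 1 B := by
    intro f hf p hp
    rw [← hT f hf] at hp
    have h0 : f ≠ 0 := by
      have := (hs f hf).1
      omega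
    have h1 := (Nat.prime_of_mem_primeFactors hp).factorization_pos_of_dvd h0 (Nat.dvd_of_mem_primeFactors hp)
    have h2 : f.factorization p < f := Nat.factorization_lt p h0
    have h3 := hB f hf
    rw [Finset.mem_Icc]
    omega
  obtain ⟨e, he⟩ : ∃ e : ℕ → (∀ p ∈ T, ℕ), e = fun f p _ => f.factorization p := ⟨_, rfl⟩
  have hinj : Set.InjOn e s := by
    intro f hf f' hf' h
    have h0 : f ≠ 0 := by
      have := (hs f hf).1
      omega
    have h0' : f' ≠ 0 := by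
      have := (hs f' hf').1
      omega
    refine Nat.eq_of_factorization_eq h0 h0' fun p => ?_
    by_cases hp : p ∈ T
    · have h1 := congrFun (congrFun h p) hp
      rw [he] at h1
      exact h1
    · have h1 : p ∉ f.primeFactors := by rwa [hT f hf]
      have h2 : p ∉ f'.primeFactors := by rwa [hT f' hf']
      rw [← Nat.support_factorization, Finsupp.notMem_support_iff] at h1 h2
      rw [h1, h2]
  have h1 : ∑ f ∈ s, gw f = ∑ φ ∈ s.image e, ∏ x ∈ T.attach, OSR_g x.1 (φ x.1 x.2) := by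
    rw [Finset.sum_image hinj]
    refine Finset.sum_congr rfl fun f hf => ?_
    rw [OSR_gw f (hs f hf).1, hT f hf, ← Finset.prod_attach]
    rw [he]
  have hsub : s.image e ⊆ T.pi fun _ => Finset.Icc 1 B := by
    intro φ hφ
    obtain ⟨f, hf, rfl⟩ := Finset.mem_image.1 hφ
    rw [Finset.mem_pi]
    intro p hp
    rw [he]
    exact hfac f hf p hp
  have h2 : ∑ f ∈ s, gw f ≤ ∏ p ∈ T, ∑ a ∈ Finset.Icc 1 B, OSR_g p a := by
    rw [h1, Finset.prod_sum]
    exact Finset.sum_le_sum_of_subset_of_nonneg hsub fun φ _ _ =>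
      Finset.prod_nonneg fun x _ => OSR_g_nonneg _ _
  refine h2.trans ?_
  have h3 : ∀ p ∈ T, ∑ a ∈ Finset.Icc 1 B, OSR_g p a ≤ (1 + ∑' a, OSR_k a) / (p : ℝ) ^ 2 := by
    intro p hp
    have hp2 : 2 ≤ p := (Nat.prime_of_mem_primeFactors hp).two_le
    calc ∑ a ∈ Finset.Icc 1 B, OSR_g p a ≤ ∑ a ∈ Finset.Icc 1 B, OSR_k a / (p : ℝ) ^ 2 :=
          Finset.sum_le_sum fun a _ => OSR_loc p a hp2
      _ = (∑ a ∈ Finset.Icc 1 B, OSR_k a) / (p : ℝ) ^ 2 := (Finset.sum_div _ _ _).symm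
      _ ≤ (1 + ∑' a, OSR_k a) / (p : ℝ) ^ 2 := by
          refine div_le_div_of_nonneg_right ?_ (by positivity)
          have := OSR_sum.sum_le_tsum (Finset.Icc 1 B) fun a _ => OSR_k_nonneg a
          linarith
  calc ∏ p ∈ T, ∑ a ∈ Finset.Icc 1 B, OSR_g p a ≤ ∏ p ∈ T, (1 + ∑' a, OSR_k a) / (p : ℝ) ^ 2 :=
        Finset.prod_le_prod (fun p _ => Finset.sum_nonneg fun a _ => OSR_g_nonneg _ _) h3
    _ = (1 + ∑' a, OSR_k a) ^ T.card / (R : ℝ) ^ 2 := by
        rw [Finset.prod_div_distrib, Finset.prod_const, Finset.prod_pow]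
        congr 2
        have h4 : ((∏ p ∈ T, p : ℕ) : ℝ) = (R : ℝ) := by rw [hR]
        rw [← h4]
        push_cast
        rfl

end Pool.Agent.T6L
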